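import Pool.Agent.H48.WM.TwoS
import Pool.Agent.H85.HW.PosX
import Pool.Agent.H85.LF.Ball
import Pool.Agent.H48.PI.Shift

/-!
# Soft potentials: the early times, lower bound of the mass density (copy of H85/HW/EarlyX)
-/

set_option autoImplicit false

open MeasureTheory Set Filter Topology Pool.Agent.H25.Kin Pool.Agent.H48.PL Pool.Agent.H48.PD
open Pool.Agent.H82.BK Pool.Agent.H82.CM Pool.Agent.H48.PR Pool.Agent.H82.HF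
open Pool.Agent.H82.HW (HRy FamY)
open Pool.Agent.H85.HW hiding clsX

namespace Pool.Agent.H48.WM

variable {d : ℕ} {h : Vec d → Vec d → Vec d → ℝ}

theorem early {s γ : ℝ} (hd : 2 ≤ d) (hs : 0 < s) (h0 : 0 ≤ γ + 2 * s) (hs1 : 2 * s < 1)
    (h2 : γ + 2 * s ≤ 2) {b : ℝ → ℝ} (hb : IsKernel d s b) (hh : Sch2 h)
    (hn : ∀ x y v, 0 ≤ h x y v) (hv : ∀ x y, 0 < ∫ v, h x y v) (B : ℕ → ℝ) :
    ∃ U₁ : ℕ → ℝ, ∀ ε > 0, ∀ τ > 0, ∃ τ' ∈ Ioc (0 : ℝ) τ, ∃ ε' > 0, ∃ n₀ : ℕ, ∀ N ≥ n₀, ∃ m₀ > 0,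
      ∀ (T : ℝ) (f : ℝ → Vec d → Vec d → ℝ), IsBoltzmannSol γ b T f →
      (∀ (M : ℕ) (x v : Vec d), (1 + ‖v‖) ^ M * f 0 x v ≤ B M) →
      (∀ x v, |f 0 x v - h x ((N : ℝ) • x) v| ≤ ε') →
      (∀ t ∈ Ico 0 T, t ≤ τ' → ∀ x, (∀ (M : ℕ) (v : Vec d), (1 + ‖v‖) ^ M * f t x v ≤ U₁ M) ∧
        m₀ ≤ ∫ v, f t x v) ∧
      (τ' < T → ∀ x v, |f τ' x v - avX h x v| ≤ ε) := by
  obtain ⟨U₁, hU⟩ := two_scale hd hs h0 hs1 h2 hb hh hn hv B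
  obtain ⟨c, hc, hp⟩ := pos2 hh hv
  refine ⟨U₁, fun ε hε τ hτ => ?_⟩
  obtain ⟨τ', hτ', ε₁, hε₁, n₀, hN⟩ := hU ε hε (min τ 1) (lt_min hτ one_pos)
  refine ⟨τ', ⟨hτ'.1, hτ'.2.trans (min_le_left _ _)⟩, min ε₁ (c / 4), lt_min hε₁ (by positivity), n₀, ?_⟩
  intro N hNn
  obtain ⟨r, V, hr, hV, hball⟩ := pos_n hh hc hp N
  obtain ⟨m₀, hm₀, hm⟩ := Pool.Agent.H85.LF.mass_low (γ := γ) hd ⟨hs, by linarith⟩ h0 h2 hb U₁
    (c := c / 4) (by positivity) hr hV 1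
  refine ⟨m₀, hm₀, ?_⟩
  intro T f hf hB hclose
  obtain ⟨h3, h4⟩ := hN N hNn T f hf hB fun x v => (hclose x v).trans (min_le_left _ _)
  refine ⟨fun t ht htτ x => ?_, h4⟩
  have htt : t < 2 * τ' := by linarith [hτ'.1]
  refine ⟨fun M v => h3 t ht htt M x v, ?_⟩
  have hf' : IsBoltzmannSol γ b (min T (2 * τ')) f := Pool.Agent.H48.PI.sol_restrict hf (min_le_left _ _)
  have hUB : Pool.Agent.H85.LB.UB U₁ (min T (2 * τ')) f := fun M t' ht' x' v' =>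
    h3 t' ⟨ht'.1, ht'.2.trans_le (min_le_left _ _)⟩ (ht'.2.trans_le (min_le_right _ _)) M x' v'
  have hinit : ∀ x, ∃ v₀, nsq v₀ ≤ V ^ 2 ∧ ∀ y w, nsq (y - x) + nsq (w - v₀) ≤ r ^ 2 → c / 4 ≤ f 0 y w := by
    intro x
    obtain ⟨v₀, h5, h6⟩ := hball x
    refine ⟨v₀, h5, fun y w hyw => ?_⟩
    have h7 := h6 y w hyw
    have h8 := (hclose y w).trans (min_le_right _ _)
    have h9 := (abs_le.1 h8).1
    linarith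
  exact hm _ f hf' hUB hinit t ⟨ht.1, lt_min ht.2 htt⟩
    (htτ.trans (hτ'.2.trans (min_le_right _ _))) x

end Pool.Agent.H48.WM
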