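import Pool.Agent.H82.HM.LayM
import Pool.Agent.H82.HM.PrpDM
import Pool.Agent.H48.WM.ClsX
import Pool.Agent.H85.HW.AvX

/-!
# Soft potentials: after a short time the solution is close to the average of its initial value

Copy of H85/HW/TwoS with the layer lemma `layerM0` and the propagation `prpDM` (H82/HM), `0 ≤ γ + 2s`.
-/

set_option autoImplicit false

open MeasureTheory Set Filter Topology Pool.Agent.H25.Kin Pool.Agent.H48.PL Pool.Agent.H48.PD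
open Pool.Agent.H82.BK Pool.Agent.H82.CM Pool.Agent.H48.PR Pool.Agent.H82.HF
open Pool.Agent.H82.HW (HRy FamY)
open Pool.Agent.H85.HW hiding clsX

namespace Pool.Agent.H48.WM

variable {d : ℕ} {h : Vec d → Vec d → Vec d → ℝ}

/-- pointwise decay from a weighted bound -/
private lemma TwoS_le {q : ℕ} {v : Vec d} {a c : ℝ} (ha : 0 ≤ a)
    (h : (1 + ‖v‖) ^ (2 * q) * a ≤ c) : a ≤ ((d : ℝ) + 1) ^ q * c * Wp q v := by
  have hn := norm_nonneg v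
  have h2 : 1 + nsq v ≤ ((d : ℝ) + 1) * (1 + ‖v‖) ^ 2 := by
    have h3 := sq_le v
    have h4 : (0 : ℝ) ≤ d := Nat.cast_nonneg _
    nlinarith [mul_nonneg h4 hn]
  have h5 : (1 + nsq v) ^ q ≤ ((d : ℝ) + 1) ^ q * (1 + ‖v‖) ^ (2 * q) := by
    rw [pow_mul, ← mul_pow]
    exact pow_le_pow_left₀ (by have := sq_nonneg' v; linarith) h2 q
  have h6 : 0 < (1 + nsq v) ^ q := by
    have := sq_nonneg' v
    positivity
  rw [Wp, ← div_eq_mul_inv, le_div_iff₀ h6]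
  calc a * (1 + nsq v) ^ q ≤ a * (((d : ℝ) + 1) ^ q * (1 + ‖v‖) ^ (2 * q)) :=
        mul_le_mul_of_nonneg_left h5 ha
    _ = ((d : ℝ) + 1) ^ q * ((1 + ‖v‖) ^ (2 * q) * a) := by ring
    _ ≤ ((d : ℝ) + 1) ^ q * c := mul_le_mul_of_nonneg_left h (by positivity)

/-- weighted smallness by interpolation -/
private lemma TwoS_near (p : ℕ) (B H : ℕ → ℝ) {ι : ℝ} (hι : 0 < ι) : ∃ ε > 0,
    ∀ (v : Vec d) (a b : ℝ), 0 ≤ a → 0 ≤ b → (∀ N : ℕ, (1 + ‖v‖) ^ N * a ≤ B N) →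
    (∀ N : ℕ, (1 + ‖v‖) ^ N * b ≤ H N) → |a - b| ≤ ε → |a - b| ≤ ι * Wp p v := by
  obtain ⟨C, hC⟩ : ∃ C : ℝ, C = |B (2 * (2 * p))| + |H (2 * (2 * p))| + 1 := ⟨_, rfl⟩
  have hC0 : 0 < C := by
    rw [hC]
    positivity
  obtain ⟨D, hD⟩ : ∃ D : ℝ, D = ((d : ℝ) + 1) ^ p := ⟨_, rfl⟩
  have hD0 : 0 < D := by
    rw [hD]
    positivity
  refine ⟨(ι / D) ^ 2 / C, by positivity, fun v a b ha hb hA hB hab => ?_⟩
  have hn := norm_nonneg v
  have hw : 0 < (1 + ‖v‖) ^ (2 * p) := by positivity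
  have h1 : (1 + ‖v‖) ^ (2 * (2 * p)) * |a - b| ≤ C := by
    have h2 : |a - b| ≤ a + b := by
      rw [abs_le]
      constructor <;> linarith
    have h3 : 0 < (1 + ‖v‖) ^ (2 * (2 * p)) := by positivity
    calc (1 + ‖v‖) ^ (2 * (2 * p)) * |a - b| ≤ (1 + ‖v‖) ^ (2 * (2 * p)) * (a + b) :=
          mul_le_mul_of_nonneg_left h2 h3.le
      _ = (1 + ‖v‖) ^ (2 * (2 * p)) * a + (1 + ‖v‖) ^ (2 * (2 * p)) * b := by ring
      _ ≤ B (2 * (2 * p)) + H (2 * (2 * p)) := add_le_add (hA _) (hB _)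
      _ ≤ C := by
          rw [hC]
          linarith [le_abs_self (B (2 * (2 * p))), le_abs_self (H (2 * (2 * p)))]
  have h4 : ((1 + ‖v‖) ^ (2 * p) * |a - b|) ^ 2 ≤ (ι / D) ^ 2 := by
    have h5 : ((1 + ‖v‖) ^ (2 * p) * |a - b|) ^ 2 =
        ((1 + ‖v‖) ^ (2 * (2 * p)) * |a - b|) * |a - b| := by
      rw [mul_pow, ← pow_mul]
      ring_nf
    rw [h5]
    calc ((1 + ‖v‖) ^ (2 * (2 * p)) * |a - b|) * |a - b| ≤ C * ((ι / D) ^ 2 / C) :=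
          mul_le_mul h1 hab (abs_nonneg _) hC0.le
      _ = (ι / D) ^ 2 := by field_simp
  have h6 : (1 + ‖v‖) ^ (2 * p) * |a - b| ≤ ι / D :=
    le_of_pow_le_pow_left₀ two_ne_zero (by positivity) h4
  have h7 := TwoS_le (abs_nonneg (a - b)) h6
  rw [← hD, mul_div_cancel₀ _ hD0.ne'] at h7
  exact h7

private lemma TwoS_mono {p q : ℕ} (h : p ≤ q) (v : Vec d) : Wp q v ≤ Wp p v := by
  unfold Wp
  have h1 : 1 ≤ 1 + nsq v := by
    have : 0 ≤ nsq v := sq_nonneg' v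
    linarith
  exact inv_anti₀ (pow_pos (by linarith) _) (pow_le_pow_right₀ h1 h)

/-- `len v Wp v ≤ 1` -/
private lemma TwoS_lw {q : ℕ} (hq : 1 ≤ q) (v : Vec d) : len v * Wp q v ≤ 1 := by
  have h1 := TwoS_mono hq v
  have h2 := sq_nonneg' v
  have h3 : len v ≤ 1 + nsq v := by
    have h4 := len_sq v
    have h5 := len_nonneg v
    nlinarith [sq_nonneg (len v - 1)]
  have h6 := Wp_mul 1 v
  rw [pow_one] at h6
  calc len v * Wp q v ≤ (1 + nsq v) * Wp 1 v := mul_le_mul h3 h1 (Wp_pos q v).le (by linarith)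
    _ = 1 := by rw [mul_comm, h6]

private lemma TwoS_len {t : ℝ} (ht : 0 ≤ t) (x v : Vec d) : len ((x - t • v) - x) = t * len v := by
  have h1 : (x - t • v) - x = -(t • v) := by abel
  have h2 : nsq (t • v) = t ^ 2 * nsq v := by
    unfold nsq
    rw [Finset.mul_sum]
    refine Finset.sum_congr rfl fun i _ => ?_
    rw [Pi.smul_apply, smul_eq_mul, mul_pow]
  rw [h1, len_neg]
  unfold len
  rw [h2, Real.sqrt_mul (sq_nonneg t), Real.sqrt_sq ht]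

/-- `N⁻¹ (N τ)^(1+2s)` is large for large `N` -/
private lemma TwoS_N {s τ : ℝ} (hs : 0 < s) (hτ : 0 < τ) (Y : ℝ) :
    ∃ n₀ : ℕ, 1 ≤ n₀ ∧ ∀ N : ℕ, n₀ ≤ N → Y ≤ (N : ℝ)⁻¹ * ((N : ℝ) * τ) ^ (1 + 2 * s) := by
  have h2s : 0 < 2 * s := by linarith
  have h1 : Tendsto (fun N : ℕ => ((N : ℝ) ^ (2 * s)) * τ ^ (1 + 2 * s)) atTop atTop :=
    ((tendsto_rpow_atTop h2s).comp tendsto_natCast_atTop_atTop).atTop_mul_const
      (Real.rpow_pos_of_pos hτ _)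
  obtain ⟨n₁, hn₁⟩ := eventually_atTop.1 (h1.eventually_ge_atTop Y)
  refine ⟨max 1 n₁, le_max_left _ _, fun N hN => ?_⟩
  have hN1 : 1 ≤ N := (le_max_left _ _).trans hN
  have hN0 : (0 : ℝ) < N := by exact_mod_cast hN1
  have h2 := hn₁ N ((le_max_right _ _).trans hN)
  refine h2.trans (le_of_eq ?_)
  rw [Real.mul_rpow hN0.le hτ.le, Real.rpow_add hN0, Real.rpow_one]
  field_simp

theorem two_scale {s γ : ℝ} (hd : 2 ≤ d) (hs : 0 < s) (h02 : 0 ≤ γ + 2 * s) (hs1 : 2 * s < 1)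
    (h2 : γ + 2 * s ≤ 2) {b : ℝ → ℝ} (hb : IsKernel d s b) (hh : Sch2 h)
    (hn : ∀ x y v, 0 ≤ h x y v) (hv : ∀ x y, 0 < ∫ v, h x y v) (B : ℕ → ℝ) :
    ∃ U₁ : ℕ → ℝ, ∀ ε > 0, ∀ τ > 0, ∃ τ' ∈ Ioc (0 : ℝ) τ, ∃ ε' > 0, ∃ n₀ : ℕ, ∀ N ≥ n₀,
      ∀ (T : ℝ) (f : ℝ → Vec d → Vec d → ℝ), IsBoltzmannSol γ b T f →
      (∀ (M : ℕ) (x v : Vec d), (1 + ‖v‖) ^ M * f 0 x v ≤ B M) →
      (∀ x v, |f 0 x v - h x ((N : ℝ) • x) v| ≤ ε') →
      (∀ t ∈ Ico 0 T, t < 2 * τ' → ∀ (M : ℕ) (x v : Vec d), (1 + ‖v‖) ^ M * f t x v ≤ U₁ M) ∧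
      (τ' < T → ∀ x v, |f τ' x v - avX h x v| ≤ ε) := by
  have hd1 : 1 ≤ d := by omega
  have hs0 : s ∈ Ioo (0 : ℝ) 1 := ⟨hs, by linarith⟩
  obtain ⟨C, Ca, cb, HL⟩ := Pool.Agent.H82.CM.exists_hypL hd hs (by linarith) h02 h2 hb
  obtain ⟨MF, hMF0, hMF⟩ := avX_hx hh (2 * d + 22)
  have hFn := avX_nn hn
  have hFm := avX_pos hh hn hv
  obtain ⟨F, hF⟩ : ∃ F, F = avX h := ⟨_, rfl⟩
  rw [← hF] at hMF hFn hFm ⊢
  obtain ⟨Kst, hKst, hlay⟩ := Pool.Agent.H82.HM.layerM0 HL hb hs1 (α := 1) hs1 le_rfl hMF hFn hFm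
  obtain ⟨A, hA0, hcls⟩ := clsX hd1 hs.le (by linarith) hh
  rw [← hF] at hcls
  obtain ⟨U₁, hU₁⟩ := Pool.Agent.H82.HM.prpDM hd hs0 (by linarith) h02 h2 hb (p := d + 10) le_rfl
    (MF + 1 + Kst * A) B
  refine ⟨U₁, fun ε hε τ hτ => ?_⟩
  -- the truncation error
  obtain ⟨ι₀, hι₀⟩ : ∃ ι₀ : ℝ, ι₀ = min 1 (ε / 4) / (2 * Real.exp (Kst * A)) := ⟨_, rfl⟩
  have hex := Real.exp_pos (Kst * A)
  have hι₀p : 0 < ι₀ := by
    rw [hι₀]
    exact div_pos (lt_min one_pos (by positivity)) (by positivity)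
  have hι₀e : 2 * Real.exp (Kst * A) * ι₀ = min 1 (ε / 4) := by
    rw [hι₀]
    field_simp
  obtain ⟨n, M, a, cc, k, φ, hFam, hsa, hsl, hap⟩ := hcls (ι₀ / 2) (by positivity)
  have hexp : 2 * Real.exp (Kst * ∑ j, a j * len (k j) ^ (2 * s)) * ι₀ ≤ min 1 (ε / 4) := by
    rw [← hι₀e]
    refine mul_le_mul_of_nonneg_right (mul_le_mul_of_nonneg_left ?_ two_pos.le) hι₀p.le
    exact Real.exp_le_exp.2 (mul_le_mul_of_nonneg_left hsl hKst)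
  obtain ⟨θ, hθ, Ul, hlay'⟩ := hlay n M a cc k φ hFam B ι₀ hι₀p (hexp.trans (min_le_left _ _))
  obtain ⟨H, hH⟩ : ∃ H : ℕ → ℝ, ∀ (N : ℕ) (x y v : Vec d), (1 + ‖v‖) ^ N * h x y v ≤ H N := by
    choose H hH0 hH using fun N : ℕ => schF_bd (s2_sch hh) N
    refine ⟨H, fun N x y v => ?_⟩
    have h1 := hH N x y v
    rwa [abs_of_nonneg (hn x y v)] at h1
  obtain ⟨ε₁, hε₁, hwp⟩ := TwoS_near (d := d) (d + 10) B H (half_pos hι₀p)
  obtain ⟨θ₁, hθ₁⟩ : ∃ θ₁ : ℝ, θ₁ = min θ 1 := ⟨_, rfl⟩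
  have hθ₁0 : 0 < θ₁ := by
    rw [hθ₁]
    exact lt_min hθ one_pos
  obtain ⟨τ', hτ'⟩ : ∃ τ' : ℝ, τ' = min τ (min (θ₁ / 2) (ε / (4 * (MF + 1)))) := ⟨_, rfl⟩
  have hτ'0 : 0 < τ' := by
    rw [hτ']
    exact lt_min hτ (lt_min (by positivity) (by positivity))
  have hτ'1 : τ' ≤ τ := by
    rw [hτ']
    exact min_le_left _ _
  have hτ'2 : τ' ≤ θ₁ / 2 := by
    rw [hτ']
    exact (min_le_right _ _).trans (min_le_left _ _)
  have hτ'3 : τ' ≤ ε / (4 * (MF + 1)) := by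
    rw [hτ']
    exact (min_le_right _ _).trans (min_le_right _ _)
  obtain ⟨n₀, hn₀, hdel⟩ := TwoS_N hs hτ'0 (4 * (Kst * A) / ε)
  refine ⟨τ', ⟨hτ'0, hτ'1⟩, ε₁, hε₁, n₀, fun N hN T f hf hf0 hfh => ?_⟩
  rcases le_or_gt T 0 with hT0 | hT0
  · refine ⟨fun t ht => ?_, fun hT => ?_⟩
    · exact absurd (ht.1.trans_lt ht.2) (not_lt.2 hT0)
    · exact absurd (hτ'0.trans hT) (not_lt.2 hT0)
  have hN1 : 1 ≤ N := hn₀.trans hN
  obtain ⟨T', hT'⟩ : ∃ T' : ℝ, T' = min T θ₁ := ⟨_, rfl⟩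
  have hT'T : T' ≤ T := by
    rw [hT']
    exact min_le_left _ _
  have hT'θ : T' ≤ θ₁ := by
    rw [hT']
    exact min_le_right _ _
  have hf' : IsBoltzmannSol γ b T' f := Pool.Agent.H48.PI.sol_restrict hf hT'T
  have hinit : ∀ x v, |f 0 x v - (F x v + ∑ j, cc j x v *
      Real.cos (2 * Real.pi * dot (k j) ((N : ℝ) • x) + φ j))| ≤ ι₀ * Wp (d + 10) v := by
    intro x v
    have h1 := hwp v (f 0 x v) (h x ((N : ℝ) • x) v) (hf.nonneg 0 ⟨le_rfl, hT0⟩ x v) (hn _ _ _)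
      (fun M => hf0 M x v) (fun M => hH M x _ v) (hfh x v)
    have h3 := abs_sub_le (f 0 x v) (h x ((N : ℝ) • x) v) (F x v + ∑ j, cc j x v *
      Real.cos (2 * Real.pi * dot (k j) ((N : ℝ) • x) + φ j))
    have h4 := hap x ((N : ℝ) • x) v
    linarith
  have hL := hlay' N hN1 T' (hT'θ.trans (by rw [hθ₁]; exact min_le_left _ _)) f hf' hf0 hinit
  have hden : ∀ t ∈ Ico 0 T', 0 ≤ (N : ℝ)⁻¹ * ((N : ℝ) * t) ^ (1 + 2 * s) := fun t ht =>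
    mul_nonneg (inv_nonneg.2 (Nat.cast_nonneg _))
      (Real.rpow_nonneg (mul_nonneg (Nat.cast_nonneg _) ht.1) _)
  have hKa : Kst * ∑ j, a j ≤ Kst * A := mul_le_mul_of_nonneg_left hsa hKst
  have hKA : 0 ≤ Kst * A := mul_nonneg hKst hA0
  have hAb : ∀ t ∈ Ico 0 T', ∀ x v, f t x v ≤ (MF + 1 + Kst * A) * Wp (d + 10) v := by
    intro t ht x v
    have h1 := (hL t ht x v).1
    have h3 := (le_abs_self _).trans ((hMF.hr (x - t • v)).le v)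
    have h4 := mul_le_mul_of_nonneg_left (TwoS_mono (show d + 10 ≤ 2 * d + 22 by omega) v) hMF0
    have h5 : Kst * (∑ j, a j) / (1 + (N : ℝ)⁻¹ * ((N : ℝ) * t) ^ (1 + 2 * s)) ≤ Kst * A := by
      have h6 := hden t ht
      rw [div_le_iff₀ (by linarith)]
      exact hKa.trans (le_mul_of_one_le_right hKA (by linarith))
    have h7 : 2 * Real.exp (Kst * ∑ j, a j * len (k j) ^ (2 * s)) * ι₀ ≤ 1 :=
      hexp.trans (min_le_left _ _)
    have h8 := (Wp_pos (d + 10) v).le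
    have h9 := (le_abs_self _).trans h1
    have h10 : (2 * Real.exp (Kst * ∑ j, a j * len (k j) ^ (2 * s)) * ι₀ +
        Kst * (∑ j, a j) / (1 + (N : ℝ)⁻¹ * ((N : ℝ) * t) ^ (1 + 2 * s))) * Wp (d + 10) v ≤
        (1 + Kst * A) * Wp (d + 10) v := mul_le_mul_of_nonneg_right (by linarith) h8
    have e1 : (MF + 1 + Kst * A) * Wp (d + 10) v = MF * Wp (d + 10) v +
        (1 + Kst * A) * Wp (d + 10) v := by ring
    rw [e1]
    linarith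
  have hb1 : (fun x => 1 * b x) = b := by
    funext x
    rw [one_mul]
  have hU := hU₁ 1 one_pos le_rfl T' (by
    rw [one_mul]
    exact hT'θ.trans (by rw [hθ₁]; exact min_le_right _ _)) f (by rw [hb1]; exact hf') hf0 hAb
  have hτθ : 2 * τ' ≤ θ₁ := by linarith
  constructor
  · intro t ht htτ M x v
    have ht' : t ∈ Ico 0 T' := ⟨ht.1, by rw [hT']; exact lt_min ht.2 (htτ.trans_le hτθ)⟩
    exact hU t ht' M x v
  · intro hτT x v
    have ht' : τ' ∈ Ico 0 T' := ⟨hτ'0.le, by rw [hT']; exact lt_min hτT (by linarith)⟩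
    have h1 := (hL τ' ht' x v).1
    have h3 := hdel N hN
    have h4 : Kst * (∑ j, a j) / (1 + (N : ℝ)⁻¹ * ((N : ℝ) * τ') ^ (1 + 2 * s)) ≤ ε / 4 := by
      have h5 := hden τ' ht'
      rw [div_le_iff₀ (by linarith)]
      have h6 : ε / 4 * (4 * (Kst * A) / ε) = Kst * A := by
        field_simp
      have h7 : ε / 4 * (4 * (Kst * A) / ε) ≤ ε / 4 * ((N : ℝ)⁻¹ * ((N : ℝ) * τ') ^ (1 + 2 * s)) :=
        mul_le_mul_of_nonneg_left h3 (by positivity)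
      have e2 : ε / 4 * (1 + (N : ℝ)⁻¹ * ((N : ℝ) * τ') ^ (1 + 2 * s)) =
          ε / 4 + ε / 4 * ((N : ℝ)⁻¹ * ((N : ℝ) * τ') ^ (1 + 2 * s)) := by ring
      rw [e2]
      linarith
    have h8 : 2 * Real.exp (Kst * ∑ j, a j * len (k j) ^ (2 * s)) * ι₀ ≤ ε / 4 :=
      hexp.trans (min_le_right _ _)
    have h9 := (Wp_pos (d + 10) v).le
    have h10 := Wp_le_one (d + 10) v
    have h11 : |f τ' x v - F (x - τ' • v) v| ≤ ε / 2 := by
      calc |f τ' x v - F (x - τ' • v) v| ≤ (2 * Real.exp (Kst * ∑ j, a j * len (k j) ^ (2 * s)) * ι₀ +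
            Kst * (∑ j, a j) / (1 + (N : ℝ)⁻¹ * ((N : ℝ) * τ') ^ (1 + 2 * s))) * Wp (d + 10) v := h1
        _ ≤ ε / 2 * Wp (d + 10) v := mul_le_mul_of_nonneg_right (by linarith) h9
        _ ≤ ε / 2 * 1 := mul_le_mul_of_nonneg_left h10 (by positivity)
        _ = ε / 2 := mul_one _
    have h12 : |F (x - τ' • v) v - F x v| ≤ ε / 4 := by
      have h13 := hMF.lip (x - τ' • v) x v
      rw [TwoS_len hτ'0.le] at h13
      have h14 := TwoS_lw (show 1 ≤ 2 * d + 22 by omega) v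
      have h15 : MF * τ' ≤ ε / 4 := by
        have h16 : MF * τ' ≤ (MF + 1) * (ε / (4 * (MF + 1))) :=
          mul_le_mul (by linarith) hτ'3 hτ'0.le (by linarith)
        have h17 : (MF + 1) * (ε / (4 * (MF + 1))) = ε / 4 := by
          have : MF + 1 ≠ 0 := by positivity
          field_simp
        linarith
      calc |F (x - τ' • v) v - F x v| ≤ MF * (τ' * len v) * Wp (2 * d + 22) v := h13
        _ = MF * τ' * (len v * Wp (2 * d + 22) v) := by ring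
        _ ≤ MF * τ' * 1 := mul_le_mul_of_nonneg_left h14 (mul_nonneg hMF0 hτ'0.le)
        _ ≤ ε / 4 := by rw [mul_one]; exact h15
    have h18 := abs_sub_le (f τ' x v) (F (x - τ' • v) v) (F x v)
    linarith

end Pool.Agent.H48.WM
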